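import Pool.Agent.H39.OD.Targets
import Pool.Agent.H49.TOH.XS3

/-! MP_397744_co, board odp_modules, row ECX. -/

set_option autoImplicit false

noncomputable section

namespace Pool.Agent.H49.OD

open Pool.Agent.H57.CP Pool.Agent.H39.TO Pool.Agent.H39.OD Pool.Agent.H49.TOH

/-- the product of simple reflections of a list -/
theorem sg_list (M : CoxeterMatrix (Fin 3)) (al : Fin 3 → V4) (σ : M.Group →* Module.End ℝ V4)
    (hS : Sg M al σ) (L : List (Fin 3)) :
    σ (L.map (ss M)).prod = (L.map (fun i => (refl (al i) : Module.End ℝ V4))).prod := by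
  induction L with
  | nil => simp
  | cons i L ih =>
    rw [List.map_cons, List.prod_cons, map_mul, ih, hS i, List.map_cons, List.prod_cons]

theorem list_mem (M : CoxeterMatrix (Fin 3)) (L : List (Fin 3)) (h : ∀ i ∈ L, i = 0 ∨ i = 1) :
    (L.map (ss M)).prod ∈ Subgroup.closure {ss M 0, ss M 1} := by
  apply Subgroup.list_prod_mem
  intro x hx
  obtain ⟨i, hi, rfl⟩ := List.mem_map.1 hx
  apply Subgroup.subset_closure
  rcases h i hi with rfl | rfl
  · simp
  · simp

theorem pf_ECX (hRFX : T_RFX) (hREP : T_REP) (hPSI : T_PSI) (hSGE : T_SGE) (hCHT : T_CHT)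
    (hBW2 : T_BW2) : T_ECX := by
  intro M al hN v n0 L L' l hM01 hv0 hv1 hv2 hvn hn0 hL' h0 h1
  obtain ⟨σ, hσ⟩ := hREP M al hN
  obtain ⟨ψ, hψ, hinj⟩ := hPSI M al σ hN hσ
  have hLor := (hSGE M al σ hN hσ).1
  set w : M.Group := (L.map (ss M)).prod with hw
  have hsw : σ w (al l) = n0 := by
    rw [hw, sg_list M al σ hσ, hn0]
  have hinv : ∀ (g : M.Group) (x : V4), σ g (σ g⁻¹ x) = x := by
    intro g x
    have : (σ g * σ g⁻¹) x = x := by
      rw [← map_mul, mul_inv_cancel, map_one]
      rfl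
    exact this
  have hinv' : ∀ (g : M.Group) (x : V4), σ g⁻¹ (σ g x) = x := by
    intro g x
    have : (σ g⁻¹ * σ g) x = x := by
      rw [← map_mul, inv_mul_cancel, map_one]
      rfl
    exact this
  have hmul : ∀ (g h : M.Group) (x : V4), σ (g * h) x = σ g (σ h x) := by
    intro g h x
    rw [map_mul]
    rfl
  have hu0 : mk n0 n0 = -1 := by
    rw [← hsw, (hLor w).1]
    exact hN.unit l
  have ei : ∀ i, ψ (ss M i) = rf (al i) := by
    intro i
    apply (hRFX (al i) (hN.unit i)).2.2.2.2.2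
    intro x
    rw [← (hψ (ss M i)).2 x, hσ i]
  have er : ψ (w * ss M l * w⁻¹) = rf n0 := by
    apply (hRFX n0 hu0).2.2.2.2.2
    intro x
    rw [← (hψ (w * ss M l * w⁻¹)).2 x]
    have e1 : σ (w * ss M l * w⁻¹) = refl n0 := by
      rw [map_mul, map_mul, hσ l, ← hsw]
      apply refl_conj _ _ (hLor w)
      rw [← map_mul, mul_inv_cancel, map_one]
    rw [e1]
  rw [← er, ← ei 0, ← ei 1]
  refine hBW2 M al σ ψ hN hσ hψ hinj 0 1 2 l w v (by decide) (by decide) (by decide) hM01 hv0 hv1
    hv2 _ rfl (by rw [hsw]; exact hvn) ?_ ?_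
  · rw [hsw]
    have hli := hN.li
    rw [Fintype.linearIndependent_iff] at hli ⊢
    intro g hg
    simp only [Fin.sum_univ_three, Matrix.cons_val] at hg
    have e1 : mk v.1 (g 0 • n0 + g 1 • al 0 + g 2 • al 1) = 0 := by
      rw [hg]
      simp [mk]
    rw [mk_add_right, mk_add_right, mk_smul_right, mk_smul_right, mk_smul_right, hv0, hv1, mul_zero,
      mul_zero, add_zero, add_zero] at e1
    have g0 : g 0 = 0 := by
      rcases mul_eq_zero.1 e1 with h | h
      · exact h
      · exact absurd h hvn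
    have h2 := hli ![g 1, g 2, 0] (by
      simp only [Fin.sum_univ_three, Matrix.cons_val]
      rw [g0, zero_smul, zero_add] at hg
      rw [zero_smul, add_zero, hg])
    have e2 := h2 0
    have e3 := h2 1
    simp only [Matrix.cons_val] at e2 e3
    intro i
    fin_cases i
    · exact g0
    · exact e2
    · exact e3
  · intro g hg hfix
    rw [hsw] at hfix
    set g1 : M.Group := (L'.map (ss M)).prod with hg1
    have hg1m : g1 ∈ Subgroup.closure {ss M 0, ss M 1} := list_mem M L' hL'
    have hy : (L'.map (fun i => (refl (al i) : Module.End ℝ V4))).prod n0 = σ g1 n0 := by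
      rw [hg1, sg_list M al σ hσ]
    rw [hy] at h0 h1
    have h3 : g1 * g * g1⁻¹ = 1 := by
      refine hCHT M al σ hN hσ 0 1 (g1 * g * g1⁻¹) (-(σ g1 n0)) (by decide) ?_ ?_ ?_ ?_
      · exact Subgroup.mul_mem _ (Subgroup.mul_mem _ hg1m hg) (Subgroup.inv_mem _ hg1m)
      · rw [mk_neg_left]
        linarith
      · rw [mk_neg_left]
        linarith
      · rw [map_neg, hmul, hmul, hinv', hfix]
    have h4 : g1 * g = g1 := by
      have := mul_inv_eq_one.1 h3
      exact this
    exact mul_eq_left.1 h4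

end Pool.Agent.H49.OD
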