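import Pool.Agent.H49.OD.EFT

/-! MP_397744_co, board odp_modules, row EF1. -/

set_option autoImplicit false

noncomputable section

namespace Pool.Agent.H49.OD

open Pool.Agent.H57.CP Pool.Agent.H39.TO Pool.Agent.H39.OD Pool.Agent.H49.TOH

theorem pf_EF1 (hECX : T_ECX) : T_EF1 := by
  intro p hodd hV v n0 n1 n2 C
  have hp := hV.p5
  have hc := cs_half p hp
  have c2 := cos_pos_of p hp 2 (by omega)
  have hB : cB p 1 = 2 * Real.cos (Real.pi / p) ^ 2 - 1 := cos_two_eq' p
  have hA : cA p = Real.cos (Real.pi / p) := rfl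
  have hD : cD p 1 = Real.cos (Real.pi / p) := rfl
  rw [cos_two_eq] at c2
  rw [hA, hB, hD] at C
  generalize hcc : Real.cos (Real.pi / p) = c at *
  refine ef_gen hECX C 0 1 (2 * c) 0 c (by linarith [hc.1]) (by ring) (by ring) (by ring)
    p 2 p ⟨by omega, by norm_num, by omega⟩ (by omega) (by norm_num) (by omega) hcc
    cos_pi_two hcc (by nlinarith [hc.1, hc.2.1]) [2] 1 ?_ (Or.inl ⟨hc.1, c2⟩)
  intro a2 hG
  have s := hG.r2 0 1 0
  have e : (0 : ℝ) • n1 + (1 : ℝ) • n2 + (0 : ℝ) • a2 = n2 := by simp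
  rw [e] at s
  change refl a2 n2 = _
  rw [s]
  module

end Pool.Agent.H49.OD
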