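import Pool.Agent.H49.OD.EFT

/-! MP_397744_co, board odp_modules, row EF3. -/

set_option autoImplicit false

noncomputable section

namespace Pool.Agent.H49.OD

open Pool.Agent.H57.CP Pool.Agent.H39.TO Pool.Agent.H39.OD Pool.Agent.H49.TOH

theorem pf_EF3 (hECX : T_ECX) : T_EF3 := by
  intro p hodd hV v n0 n1 n2 C
  have hp := hV.p5
  have hp7 := hV.i3 rfl
  have hc := cs_half p hp
  have hB : cB p 3 = 8 * Real.cos (Real.pi / p) ^ 4 - 8 * Real.cos (Real.pi / p) ^ 2 + 1 :=
    cos_four_eq p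
  have hA : cA p = Real.cos (Real.pi / p) := rfl
  have hD : cD p 3 = Real.cos (Real.pi / p) := rfl
  have hpos : (0 < Real.cos (Real.pi / p) ∧ 0 < 8 * Real.cos (Real.pi / p) ^ 4 -
      8 * Real.cos (Real.pi / p) ^ 2 + 1) ∨ (0 < Real.cos (Real.pi / p) + 2 *
      (8 * Real.cos (Real.pi / p) ^ 4 - 8 * Real.cos (Real.pi / p) ^ 2 + 1) *
      Real.cos (Real.pi / p) ∧
      8 * Real.cos (Real.pi / p) ^ 4 - 8 * Real.cos (Real.pi / p) ^ 2 + 1 < 0) := by
    have hcase : p = 7 ∨ 9 ≤ p := by
      obtain ⟨k, hk⟩ := hodd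
      omega
    rcases hcase with h | h
    · right
      have hpi := Real.pi_pos
      refine ⟨?_, ?_⟩
      · rw [← cos_four_eq]
        have h4 : -(1 / 2) < Real.cos (4 * Real.pi / p) := by
          have e : -(1 / 2 : ℝ) = Real.cos (Real.pi - Real.pi / 3) := by
            rw [Real.cos_pi_sub, Real.cos_pi_div_three]
          rw [e, h]
          apply Real.cos_lt_cos_of_nonneg_of_le_pi
          · positivity
          · linarith
          · push_cast
            linarith
        have h5 := mul_pos hc.1 (by linarith : 0 < 1 + 2 * Real.cos (4 * Real.pi / p))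
        linarith
      · rw [← cos_four_eq, h]
        apply Real.cos_neg_of_pi_div_two_lt_of_lt
        · push_cast
          linarith
        · push_cast
          linarith
    · left
      refine ⟨hc.1, ?_⟩
      rw [← cos_four_eq]
      have := cos_pos_of p hp 4 (by omega)
      exact_mod_cast this
  rw [hA, hB, hD] at C
  generalize hcc : Real.cos (Real.pi / p) = c at *
  have hZ : 0 < 8 * c ^ 3 - 4 * c := by
    have := mul_pos hc.1 (by linarith [hc.2.2] : 0 < 2 * c ^ 2 - 1)
    nlinarith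
  refine ef_gen hECX C (8 * c ^ 3 - 4 * c) (4 * c ^ 2 - 1) (8 * c ^ 3 - 4 * c) (1 / 2) 0 hZ
    (by ring) (by ring) (by ring) p 3 2 ⟨by omega, by norm_num, by norm_num⟩ (by omega)
    (by norm_num) (by norm_num) hcc cos_pi_three cos_pi_two (by nlinarith [hc.1, hc.2.1])
    [2, 0, 1, 0] 1 ?_ hpos
  intro a2 hG
  have s1 := hG.r0 0 1 0
  have e : (0 : ℝ) • n1 + (1 : ℝ) • n2 + (0 : ℝ) • a2 = n2 := by simp
  rw [e] at s1
  change refl a2 (refl n1 (refl n2 (refl n1 n2))) = _
  rw [s1, hG.r1, hG.r0, hG.r2]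
  module

end Pool.Agent.H49.OD
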