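import Pool.Agent.H49.OD.EFT

/-! MP_397744_co, board odp_modules, row EF4. -/

set_option autoImplicit false

noncomputable section

namespace Pool.Agent.H49.OD

open Pool.Agent.H57.CP Pool.Agent.H39.TO Pool.Agent.H39.OD Pool.Agent.H49.TOH

theorem pf_EF4 (hECX : T_ECX) : T_EF4 := by
  intro p hodd hV v n0 n1 n2 C
  have hp := hV.p5
  have hp7 := hV.i4 rfl
  have hc := cs_half p hp
  have c2 := cos_pos_of p hp 2 (by omega)
  have hB : cB p 4 = 2 * Real.cos (Real.pi / p) ^ 2 - 1 := cos_two_eq' p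
  have hA : cA p = Real.cos (Real.pi / p) := rfl
  have hD : cD p 4 = 1 / 2 := rfl
  rw [cos_two_eq] at c2
  rw [hA, hB, hD] at C
  have hid : 8 * Real.cos (Real.pi / p) ^ 3 - 4 * Real.cos (Real.pi / p) ^ 2 -
      4 * Real.cos (Real.pi / p) + 1 = 0 := by
    have h3 : Real.cos (3 * Real.pi / p) = -Real.cos (4 * Real.pi / p) := by
      rw [← Real.cos_pi_sub]
      have e : 3 * Real.pi / (p : ℝ) = Real.pi - 4 * Real.pi / p := by
        rw [hp7]
        push_cast
        ring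
      rw [e]
    rw [cos_three_eq, cos_four_eq] at h3
    have h4 : (Real.cos (Real.pi / p) + 1) * (8 * Real.cos (Real.pi / p) ^ 3 -
        4 * Real.cos (Real.pi / p) ^ 2 - 4 * Real.cos (Real.pi / p) + 1) = 0 := by
      linear_combination h3
    rcases mul_eq_zero.1 h4 with h | h
    · linarith [hc.1]
    · exact h
  have h7 : Real.cos (Real.pi / (7 : ℕ)) = Real.cos (Real.pi / p) := by rw [hp7]
  generalize hcc : Real.cos (Real.pi / p) = c at *
  have hZ : 0 < 8 * c ^ 3 - 2 * c := by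
    have := mul_pos hc.1 (by linarith [hc.2.2] : 0 < 4 * c ^ 2 - 1)
    nlinarith
  refine ef_gen hECX C (4 * c ^ 2) 1 (8 * c ^ 3 - 2 * c) c 0 hZ
    (by linear_combination (-(1 / 2) * (2 * c + 1)) * hid) (by ring)
    (by linear_combination (-(4 * c ^ 2) * (2 * c + 1)) * hid) 3 7 2
    ⟨by norm_num, by norm_num, by norm_num⟩ (by norm_num)
    (by norm_num) (by norm_num) cos_pi_three h7 cos_pi_two (by norm_num)
    [2, 0, 2, 0] 1 ?_ (Or.inl ⟨hc.1, c2⟩)
  intro a2 hG
  have s1 := hG.r0 0 1 0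
  have e : (0 : ℝ) • n1 + (1 : ℝ) • n2 + (0 : ℝ) • a2 = n2 := by simp
  rw [e] at s1
  change refl a2 (refl n1 (refl a2 (refl n1 n2))) = _
  rw [s1, hG.r2, hG.r0, hG.r2]
  module

end Pool.Agent.H49.OD
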