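import Pool.Agent.H49.OD.EFT

/-! MP_397744_co, board odp_modules, row EF2. -/

set_option autoImplicit false

noncomputable section

namespace Pool.Agent.H49.OD

open Pool.Agent.H57.CP Pool.Agent.H39.TO Pool.Agent.H39.OD Pool.Agent.H49.TOH

theorem pf_EF2 (hECX : T_ECX) : T_EF2 := by
  intro p hodd hV v n0 n1 n2 C
  have hp := hV.p5
  have hc := cs_half p hp
  have hB : cB p 2 = 4 * Real.cos (Real.pi / p) ^ 3 - 3 * Real.cos (Real.pi / p) := cos_three_eq p
  have hA : cA p = Real.cos (Real.pi / p) := rfl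
  have hD : cD p 2 = 1 / 2 := rfl
  have hpos : (0 < Real.cos (Real.pi / p) ∧ 0 < 4 * Real.cos (Real.pi / p) ^ 3 -
      3 * Real.cos (Real.pi / p)) ∨ (0 < Real.cos (Real.pi / p) + 2 *
      (4 * Real.cos (Real.pi / p) ^ 3 - 3 * Real.cos (Real.pi / p)) * (1 / 2) ∧
      4 * Real.cos (Real.pi / p) ^ 3 - 3 * Real.cos (Real.pi / p) < 0) := by
    have hcase : p = 5 ∨ 7 ≤ p := by
      obtain ⟨k, hk⟩ := hodd
      omega
    rcases hcase with h | h
    · right
      refine ⟨?_, ?_⟩
      · have h3 := mul_pos hc.1 (by linarith [hc.2.2] : 0 < 2 * Real.cos (Real.pi / p) ^ 2 - 1)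
        nlinarith
      · rw [← cos_three_eq, h]
        have := Real.pi_pos
        apply Real.cos_neg_of_pi_div_two_lt_of_lt
        · push_cast
          linarith
        · push_cast
          linarith
    · left
      refine ⟨hc.1, ?_⟩
      rw [← cos_three_eq]
      have := cos_pos_of p hp 3 (by omega)
      exact_mod_cast this
  rw [hA, hB, hD] at C
  generalize hcc : Real.cos (Real.pi / p) = c at *
  refine ef_gen hECX C 0 (2 * c) (4 * c ^ 2 - 1) 0 c (by linarith [hc.2.2]) (by ring) (by ring)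
    (by ring) 3 2 p ⟨by norm_num, by norm_num, by omega⟩ (by norm_num) (by norm_num) (by omega)
    cos_pi_three cos_pi_two hcc (by norm_num) [2, 1] 2 ?_ hpos
  intro a2 hG
  have s1 := hG.r1 0 0 1
  have e : (0 : ℝ) • n1 + (0 : ℝ) • n2 + (1 : ℝ) • a2 = a2 := by simp
  rw [e] at s1
  change refl a2 (refl n2 a2) = _
  rw [s1, hG.r2]
  module

end Pool.Agent.H49.OD
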