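import Pool.Agent.H39.OD.Targets
import Pool.Agent.H49.TOH.XS3

/-! MP_397744_co, board odp_modules, rows EF0 to EF4: tools. -/

set_option autoImplicit false

noncomputable section

namespace Pool.Agent.H49.OD

open Pool.Agent.H57.CP Pool.Agent.H39.TO Pool.Agent.H39.OD Pool.Agent.H49.TOH

/-- three unit vectors with given products -/
structure Gm (a0 a1 a2 : V4) (g01 g02 g12 : ℝ) : Prop where
  u0 : mk a0 a0 = -1
  u1 : mk a1 a1 = -1
  u2 : mk a2 a2 = -1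
  e01 : mk a0 a1 = g01
  e02 : mk a0 a2 = g02
  e12 : mk a1 a2 = g12

theorem Gm.r0 {a0 a1 a2 : V4} {g01 g02 g12 : ℝ} (h : Gm a0 a1 a2 g01 g02 g12) (x y z : ℝ) :
    refl a0 (x • a0 + y • a1 + z • a2) =
      (-x + 2 * (y * g01 + z * g02)) • a0 + y • a1 + z • a2 := by
  rw [refl_eq, mk_add_right, mk_add_right, mk_smul_right, mk_smul_right, mk_smul_right, h.u0, h.e01,
    h.e02]
  module

theorem Gm.r1 {a0 a1 a2 : V4} {g01 g02 g12 : ℝ} (h : Gm a0 a1 a2 g01 g02 g12) (x y z : ℝ) :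
    refl a1 (x • a0 + y • a1 + z • a2) =
      x • a0 + (-y + 2 * (x * g01 + z * g12)) • a1 + z • a2 := by
  rw [refl_eq, mk_add_right, mk_add_right, mk_smul_right, mk_smul_right, mk_smul_right, h.u1,
    mk_comm a1 a0, h.e01, h.e12]
  module

theorem Gm.r2 {a0 a1 a2 : V4} {g01 g02 g12 : ℝ} (h : Gm a0 a1 a2 g01 g02 g12) (x y z : ℝ) :
    refl a2 (x • a0 + y • a1 + z • a2) =
      x • a0 + y • a1 + (-z + 2 * (x * g02 + y * g12)) • a2 := by
  rw [refl_eq, mk_add_right, mk_add_right, mk_smul_right, mk_smul_right, mk_smul_right, h.u2,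
    mk_comm a2 a0, mk_comm a2 a1, h.e02, h.e12]
  module

/-- the third simple root -/
theorem ef_gm {A B D : ℝ} {v : H3} {n0 n1 n2 : V4} (C : Cfg A B D v n0 n1 n2)
    (X Y Z g02 g12 : ℝ) (hZ : 0 < Z) (h02 : A + X - Y * D = Z * g02)
    (h12 : B - X * D + Y = Z * g12)
    (hu : 1 + X ^ 2 + Y ^ 2 + 2 * X * A + 2 * Y * B - 2 * X * Y * D = Z ^ 2) :
    ∃ a2 : V4, Gm n1 n2 a2 D g02 g12 ∧ n0 = X • n1 + Y • n2 + Z • a2 ∧ mk v.1 a2 < 0 := by
  have hZ' : Z ≠ 0 := hZ.ne'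
  have ea : ∀ x : V4, mk x (Z⁻¹ • (n0 + (-X) • n1 + (-Y) • n2)) =
      Z⁻¹ * (mk x n0 - X * mk x n1 - Y * mk x n2) := by
    intro x
    rw [mk_smul_right, mk_add_right, mk_add_right, mk_smul_right, mk_smul_right]
    ring
  have e1 : mk n1 (Z⁻¹ • (n0 + (-X) • n1 + (-Y) • n2)) = g02 := by
    rw [ea, mk_comm n1 n0, C.a, C.u1, C.d]
    have : A - X * -1 - Y * D = Z * g02 := by linarith
    rw [this, ← mul_assoc, inv_mul_cancel₀ hZ', one_mul]
  have e2 : mk n2 (Z⁻¹ • (n0 + (-X) • n1 + (-Y) • n2)) = g12 := by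
    rw [ea, mk_comm n2 n0, mk_comm n2 n1, C.b, C.u2, C.d]
    have : B - X * D - Y * -1 = Z * g12 := by linarith
    rw [this, ← mul_assoc, inv_mul_cancel₀ hZ', one_mul]
  refine ⟨Z⁻¹ • (n0 + (-X) • n1 + (-Y) • n2), ⟨C.u1, C.u2, ?_, C.d, e1, e2⟩, ?_, ?_⟩
  · rw [ea, mk_comm _ n1, mk_comm _ n2, e1, e2, mk_comm _ n0, ea, C.u0, C.a, C.b]
    have h3 : Z⁻¹ * (-1 - X * A - Y * B) - X * g02 - Y * g12 = -Z := by
      have h4 : Z * (Z⁻¹ * (-1 - X * A - Y * B) - X * g02 - Y * g12) = Z * (-Z) := by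
        rw [mul_sub, mul_sub, ← mul_assoc, mul_inv_cancel₀ hZ', one_mul]
        linear_combination X * h02 + Y * h12 - hu
      exact mul_left_cancel₀ hZ' h4
    rw [h3, mul_neg, inv_mul_cancel₀ hZ']
  · rw [smul_smul, mul_inv_cancel₀ hZ', one_smul]
    module
  · rw [ea, C.v1, C.v2, mul_zero, mul_zero, sub_zero, sub_zero]
    exact mul_neg_of_pos_of_neg (inv_pos.2 hZ) C.v0

theorem ef_nrm {g01 g02 g12 : ℝ} {v : H3} {a0 a1 a2 : V4} (h : Gm a0 a1 a2 g01 g02 g12)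
    (m01 m02 m12 : ℕ) (hm : m01 ≠ 1 ∧ m02 ≠ 1 ∧ m12 ≠ 1) (z01 : m01 ≠ 0) (z02 : m02 ≠ 0)
    (z12 : m12 ≠ 0) (e01 : Real.cos (Real.pi / m01) = g01) (e02 : Real.cos (Real.pi / m02) = g02)
    (e12 : Real.cos (Real.pi / m12) = g12) (hD : g01 ^ 2 < 1) (hv0 : mk v.1 a0 = 0)
    (hv1 : mk v.1 a1 = 0) (hv2 : mk v.1 a2 < 0) : Nrm (cox m01 m02 m12 hm) ![a0, a1, a2] := by
  refine ⟨?_, ?_, ?_, ?_⟩
  · intro i
    fin_cases i
    · exact h.u0
    · exact h.u1
    · exact h.u2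
  · intro i j hij _
    fin_cases i <;> fin_cases j
    · exact absurd rfl hij
    · change mk a0 a1 = Real.cos (Real.pi / (m01 : ℕ))
      rw [h.e01, e01]
    · change mk a0 a2 = Real.cos (Real.pi / (m02 : ℕ))
      rw [h.e02, e02]
    · change mk a1 a0 = Real.cos (Real.pi / (m01 : ℕ))
      rw [mk_comm, h.e01, e01]
    · exact absurd rfl hij
    · change mk a1 a2 = Real.cos (Real.pi / (m12 : ℕ))
      rw [h.e12, e12]
    · change mk a2 a0 = Real.cos (Real.pi / (m02 : ℕ))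
      rw [mk_comm, h.e02, e02]
    · change mk a2 a1 = Real.cos (Real.pi / (m12 : ℕ))
      rw [mk_comm, h.e12, e12]
    · exact absurd rfl hij
  · intro i j hij h0
    exfalso
    fin_cases i <;> fin_cases j
    · exact absurd rfl hij
    · exact z01 h0
    · exact z02 h0
    · exact z01 h0
    · exact absurd rfl hij
    · exact z12 h0
    · exact z02 h0
    · exact z12 h0
    · exact absurd rfl hij
  · rw [Fintype.linearIndependent_iff]
    intro g hg
    simp only [Fin.sum_univ_three, Matrix.cons_val] at hg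
    have k0 : ∀ x : V4, mk x (g 0 • a0 + g 1 • a1 + g 2 • a2) = 0 := by
      intro x
      rw [hg]
      simp [mk]
    have k1 := k0 v.1
    rw [mk_add_right, mk_add_right, mk_smul_right, mk_smul_right, mk_smul_right, hv0, hv1] at k1
    have g2 : g 2 = 0 := by
      have : g 2 * mk v.1 a2 = 0 := by linarith
      rcases mul_eq_zero.1 this with h' | h'
      · exact h'
      · exact absurd h' hv2.ne
    have k2 := k0 a0
    have k3 := k0 a1
    rw [mk_add_right, mk_add_right, mk_smul_right, mk_smul_right, mk_smul_right, g2, h.u0, h.e01] at k2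
    rw [mk_add_right, mk_add_right, mk_smul_right, mk_smul_right, mk_smul_right, g2, h.u1,
      mk_comm a1 a0, h.e01] at k3
    have k4 : g 0 * (g01 ^ 2 - 1) = 0 := by linear_combination k2 + g01 * k3
    have g0 : g 0 = 0 := by
      rcases mul_eq_zero.1 k4 with h' | h'
      · exact h'
      · linarith
    have g1 : g 1 = 0 := by
      rw [g0] at k3
      linarith
    intro i
    fin_cases i
    · exact g0
    · exact g1
    · exact g2

/-- all families at once -/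
theorem ef_gen (hECX : T_ECX) {A B D : ℝ} {v : H3} {n0 n1 n2 : V4} (C : Cfg A B D v n0 n1 n2)
    (X Y Z g02 g12 : ℝ) (hZ : 0 < Z) (h02 : A + X - Y * D = Z * g02)
    (h12 : B - X * D + Y = Z * g12)
    (hu : 1 + X ^ 2 + Y ^ 2 + 2 * X * A + 2 * Y * B - 2 * X * Y * D = Z ^ 2)
    (m01 m02 m12 : ℕ) (hm : m01 ≠ 1 ∧ m02 ≠ 1 ∧ m12 ≠ 1) (z01 : m01 ≠ 0) (z02 : m02 ≠ 0)
    (z12 : m12 ≠ 0) (e01 : Real.cos (Real.pi / m01) = D) (e02 : Real.cos (Real.pi / m02) = g02)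
    (e12 : Real.cos (Real.pi / m12) = g12) (hD : D ^ 2 < 1) (L : List (Fin 3)) (l : Fin 3)
    (hL : ∀ a2 : V4, Gm n1 n2 a2 D g02 g12 →
      (L.map (fun i => (refl (![n1, n2, a2] i) : Module.End ℝ V4))).prod (![n1, n2, a2] l) =
        X • n1 + Y • n2 + Z • a2)
    (hpos : (0 < A ∧ 0 < B) ∨ (0 < A + 2 * B * D ∧ B < 0)) :
    BStr v (rf n0) (rf n1) (rf n2) := by
  obtain ⟨a2, hG, hn0, hv⟩ := ef_gm C X Y Z g02 g12 hZ h02 h12 hu
  have hN := ef_nrm hG m01 m02 m12 hm z01 z02 z12 e01 e02 e12 hD C.v1 C.v2 hv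
  rcases hpos with ⟨hA, hB⟩ | ⟨hA, hB⟩
  · refine hECX _ ![n1, n2, a2] hN v n0 L [] l z01 C.v1 C.v2 hv C.v0.ne ?_ (by simp) ?_ ?_
    · rw [hL a2 hG]
      exact hn0
    · change 0 < mk n0 n1
      rw [C.a]
      exact hA
    · change 0 < mk n0 n2
      rw [C.b]
      exact hB
  · refine hECX _ ![n1, n2, a2] hN v n0 L [1] l z01 C.v1 C.v2 hv C.v0.ne ?_ (by simp) ?_ ?_
    · rw [hL a2 hG]
      exact hn0
    · change 0 < mk ((refl n2 * 1 : Module.End ℝ V4) n0) n1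
      rw [mul_one, refl_eq, mk_add_left, mk_smul_left, C.a, mk_comm n2 n0, mk_comm n2 n1, C.b, C.d]
      exact hA
    · change 0 < mk ((refl n2 * 1 : Module.End ℝ V4) n0) n2
      rw [mul_one, refl_eq, mk_add_left, mk_smul_left, C.b, mk_comm n2 n0, C.b, C.u2]
      linarith

theorem cos_three_eq (p : ℕ) : Real.cos (3 * Real.pi / p) =
    4 * Real.cos (Real.pi / p) ^ 3 - 3 * Real.cos (Real.pi / p) := by
  rw [← Real.cos_three_mul]
  have : 3 * Real.pi / p = 3 * (Real.pi / p) := by ring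
  rw [this]

theorem cos_two_eq' (p : ℕ) : Real.cos (2 * Real.pi / p) = 2 * Real.cos (Real.pi / p) ^ 2 - 1 := by
  rw [← Real.cos_two_mul]
  have : 2 * Real.pi / p = 2 * (Real.pi / p) := by ring
  rw [this]

theorem cos_four_eq (p : ℕ) : Real.cos (4 * Real.pi / p) =
    8 * Real.cos (Real.pi / p) ^ 4 - 8 * Real.cos (Real.pi / p) ^ 2 + 1 := by
  have : 4 * Real.pi / p = 2 * (2 * (Real.pi / p)) := by ring
  rw [this, Real.cos_two_mul, Real.cos_two_mul]
  ring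

/-- `cos (π / p) ^ 2 > 1 / 2` -/
theorem cs_half (p : ℕ) (hp : 5 ≤ p) : 0 < Real.cos (Real.pi / p) ∧ Real.cos (Real.pi / p) < 1 ∧
    1 < 2 * Real.cos (Real.pi / p) ^ 2 := by
  have h1 := cos_pos_of p hp 1 (by omega)
  rw [cos_one_eq] at h1
  have h2 := cos_pos_of p hp 2 (by omega)
  rw [cos_two_eq] at h2
  refine ⟨h1, ?_, by linarith⟩
  have hp0 : (0 : ℝ) < p := by exact_mod_cast (by omega : 0 < p)
  have h3 : 0 < Real.pi / p := div_pos Real.pi_pos hp0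
  have h4 : Real.pi / p ≤ Real.pi := by
    apply div_le_self Real.pi_pos.le
    exact_mod_cast (by omega : 1 ≤ p)
  rw [← Real.cos_zero]
  exact Real.cos_lt_cos_of_nonneg_of_le_pi le_rfl h4 h3

end Pool.Agent.H49.OD
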